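import Pool.Agent.TFJ.Stmts

namespace Pool.Agent.TFJ.H80

theorem jac_int : IsJacobsonRing ℤ := by
  rw [isJacobsonRing_iff_prime_eq]
  intro P hP
  by_cases h0 : P = ⊥
  · rw [h0, eq_bot_iff]
    intro x hx
    rw [Ideal.mem_jacobson_bot] at hx
    have h1 := Int.isUnit_iff.mp (hx x)
    have h2 : x * x = 0 := by
      rcases h1 with h | h
      · linarith
      · nlinarith [mul_self_nonneg x]
    exact mul_self_eq_zero.mp h2
  · have hm : P.IsMaximal := hP.isMaximal h0
    exact Ideal.jacobson_eq_self_of_isMaximal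

theorem div : DivStmt := by
  classical
  intro F _ _ T r h
  by_contra hr
  let R' : Subalgebra ℤ F := Algebra.adjoin ℤ ((insert r⁻¹ T : Finset F) : Set F)
  haveI hft : Algebra.FiniteType ℤ R' :=
    (Subalgebra.fg_iff_finiteType R').mp (Subalgebra.fg_adjoin_finset _)
  obtain ⟨m, hm⟩ := Ideal.exists_maximal R'
  letI : Field (R' ⧸ m) := Ideal.Quotient.field m
  haveI : Algebra.FiniteType ℤ (R' ⧸ m) :=
    Algebra.FiniteType.of_surjective (Ideal.Quotient.mkₐ ℤ m) (Ideal.Quotient.mkₐ_surjective ℤ m)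
  haveI := jac_int
  haveI : Module.Finite ℤ (R' ⧸ m) := finite_of_finite_type_of_isJacobsonRing ℤ (R' ⧸ m)
  have hchar : ∃ N : ℕ, 1 ≤ N ∧ ((N : ℕ) : R' ⧸ m) = 0 := by
    by_contra hcon
    push Not at hcon
    have hcz : CharZero (R' ⧸ m) := by
      refine charZero_of_inj_zero fun n hn => ?_
      by_contra hne
      exact hcon n (Nat.one_le_iff_ne_zero.mpr hne) hn
    have hinj : Function.Injective (algebraMap ℤ (R' ⧸ m)) :=
      (algebraMap ℤ (R' ⧸ m)).injective_int
    exact Int.not_isField (isField_of_isIntegral_of_isField hinj (Field.toIsField (R' ⧸ m)))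
  obtain ⟨N, hN, hN0⟩ := hchar
  obtain ⟨s, hs, hrs⟩ := h N hN
  have hs' : s ∈ R' := by
    have h1 : Subring.closure (T : Set F) ≤ R'.toSubring := by
      rw [Subring.closure_le]
      intro x hx
      exact Algebra.subset_adjoin (by
        rw [Finset.coe_insert]
        exact Set.mem_insert_of_mem _ hx)
    exact h1 hs
  have hr' : r⁻¹ ∈ R' := Algebra.subset_adjoin (by
    rw [Finset.coe_insert]
    exact Set.mem_insert _ _)
  have h1 : (1 : R') = (N : R') * (⟨s, hs'⟩ * ⟨r⁻¹, hr'⟩) := by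
    apply Subtype.ext
    show (1 : F) = ((N : R') : F) * (s * r⁻¹)
    have h2 : ((N : R') : F) = (N : F) := by simp
    rw [h2, ← mul_assoc, ← nsmul_eq_mul, ← hrs, mul_inv_cancel₀ hr]
  have h2 := congrArg (Ideal.Quotient.mk m) h1
  rw [map_mul, map_natCast, hN0, zero_mul, map_one] at h2
  exact one_ne_zero h2

end Pool.Agent.TFJ.H80
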